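import Pool.Agent.H835R2.Knot.Deg

/-! # The bound -/

set_option autoImplicit false
set_option linter.unusedSimpArgs false
set_option linter.unusedVariables false
set_option linter.unusedSectionVars false

namespace Pool.Agent.H835R2.Knot

open St hiding birth death
open Piece Finset

section

variable {κ : Type} [DecidableEq κ]

/-- `1` if `a ≠ b`. -/
def nd (a b : κ) : ℤ := if a = b then 0 else 1

theorem sum_nd {F : Finset κ} {a : κ} (ha : a ∈ F) : ∑ b ∈ F, nd a b = F.card - 1 := by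
  have : ∀ b ∈ F, nd a b = 1 - if a = b then 1 else 0 := by
    intro b _; unfold nd; split_ifs <;> rfl
  rw [sum_congr rfl this, sum_sub_distrib, sum_ite_eq, if_pos ha]
  simp

theorem nd_comm (a b : κ) : nd a b = nd b a := by
  unfold nd; simp only [eq_comm]

theorem sum_nd2 {F : Finset κ} {a b : κ} (ha : a ∈ F) (hb : b ∈ F) (h : a ≠ b) :
    ∑ c ∈ F, nd b c * nd c a = F.card - 2 := by
  have : ∀ c ∈ F, nd b c * nd c a = 1 - (if b = c then 1 else 0) - if a = c then 1 else 0 := by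
    intro c _
    unfold nd
    by_cases h1 : b = c
    · subst h1; simp [h, h.symm]
    · by_cases h2 : c = a
      · subst h2; simp [h1]
      · simp [h1, h2, Ne.symm h2]
  rw [sum_congr rfl this, sum_sub_distrib, sum_sub_distrib, sum_ite_eq, sum_ite_eq, if_pos ha,
    if_pos hb]
  simp
  ring

theorem sum_nd3 (F : Finset κ) : ∑ a ∈ F, ∑ b ∈ F, ∑ c ∈ F, nd a b * nd b c * nd c a =
    (F.card : ℤ) * (F.card - 1) * (F.card - 2) := by
  have h1 : ∀ a ∈ F, ∑ b ∈ F, ∑ c ∈ F, nd a b * nd b c * nd c a =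
      ((F.card : ℤ) - 1) * (F.card - 2) := by
    intro a ha
    have h2 : ∀ b ∈ F, ∑ c ∈ F, nd a b * nd b c * nd c a = nd a b * ((F.card : ℤ) - 2) := by
      intro b hb
      by_cases hab : a = b
      · subst hab; simp [nd]
      · simp only [mul_assoc]
        rw [← mul_sum, sum_nd2 ha hb hab]
    rw [sum_congr rfl h2, ← sum_mul, sum_nd ha]
  rw [sum_congr rfl h1, sum_const, nsmul_eq_mul]
  ring

theorem P_bound {x y z : ℤ} (hx : x = -1 ∨ x = 0 ∨ x = 1) (hy : y = -1 ∨ y = 0 ∨ y = 1)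
    (hz : z = -1 ∨ z = 0 ∨ z = 1) : |P x y z| ≤ 2 * (1 + (x * y + y * z + z * x)) := by
  rcases hx with rfl | rfl | rfl <;> rcases hy with rfl | rfl | rfl <;>
    rcases hz with rfl | rfl | rfl <;> decide

theorem term_bound {m : κ → κ → ℤ} {a b c : κ} (hs : ∀ a, m a a = 0)
    (hanti : ∀ a b, m b a = -m a b) (h1 : m a b = -1 ∨ m a b = 0 ∨ m a b = 1)
    (h2 : m b c = -1 ∨ m b c = 0 ∨ m b c = 1) (h3 : m c a = -1 ∨ m c a = 0 ∨ m c a = 1) :
    |P (m a b) (m b c) (m c a)| ≤ 2 * (nd a b * nd b c * nd c a) +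
      2 * (m a b * m b c * nd c a + m b c * m c a * nd a b + m c a * m a b * nd b c) := by
  by_cases hab : a = b
  · subst hab
    by_cases hac : a = c
    · subst hac
      rw [hs]; simp [nd, P]
    · rw [hs, hanti a c]
      have e : P 0 (m a c) (-m a c) = 0 := by
        rcases h2 with h | h | h <;> rw [h] <;> decide
      rw [e]
      simp [nd, hac, Ne.symm hac]
  · by_cases hbc : b = c
    · subst hbc
      rw [hs, hanti a b, P_cyc]
      have e : P 0 (-m a b) (m a b) = 0 := by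
        rcases h1 with h | h | h <;> rw [h] <;> decide
      rw [e]
      simp [nd, hab, Ne.symm hab]
    · by_cases hca : c = a
      · subst hca
        rw [hs, hanti b c]
        have e : P (-m b c) (m b c) 0 = 0 := by
          rcases h2 with h | h | h <;> rw [h] <;> decide
        rw [e]
        simp [nd, hab, hbc]
      · have h := P_bound h1 h2 h3
        simp only [nd, hab, hbc, hca, if_false]
        linarith

theorem sum_mm {F : Finset κ} {m : κ → κ → ℤ} (hs : ∀ a, m a a = 0)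
    (hanti : ∀ a b, m b a = -m a b) (hr : ∀ a ∈ F, ∀ b ∈ F, m a b = -1 ∨ m a b = 0 ∨ m a b = 1) :
    ∑ a ∈ F, ∑ b ∈ F, ∑ c ∈ F, m a b * m b c * nd c a ≤ (F.card : ℤ) * (F.card - 1) := by
  have e0 : ∑ a ∈ F, ∑ b ∈ F, ∑ c ∈ F, m a b * m b c * nd c a =
      ∑ b ∈ F, (-(∑ c ∈ F, m b c) ^ 2 + ∑ a ∈ F, (m b a) ^ 2) := by
    rw [sum_comm]
    refine sum_congr rfl fun b hb => ?_
    have e1 : ∀ a ∈ F, ∑ c ∈ F, m a b * m b c * nd c a =
        -(m b a) * (∑ c ∈ F, m b c) + (m b a) ^ 2 := by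
      intro a ha
      have e2 : ∀ c ∈ F, m a b * m b c * nd c a =
          -(m b a) * m b c + (if a = c then (m b a) ^ 2 else 0) := by
        intro c _
        rw [hanti b a]
        unfold nd
        by_cases h : a = c
        · subst h; simp; ring
        · simp [h, Ne.symm h]
      rw [sum_congr rfl e2, sum_add_distrib, ← mul_sum, sum_ite_eq, if_pos ha]
    rw [sum_congr rfl e1, sum_add_distrib, ← sum_mul]
    rw [sum_neg_distrib]
    ring
  rw [e0]
  have e3 : ∀ b ∈ F, -(∑ c ∈ F, m b c) ^ 2 + ∑ a ∈ F, (m b a) ^ 2 ≤ (F.card : ℤ) - 1 := by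
    intro b hb
    have e4 : ∀ a ∈ F, (m b a) ^ 2 ≤ nd b a := by
      intro a ha
      unfold nd
      split_ifs with h
      · subst h; rw [hs]; norm_num
      · rcases hr b hb a ha with h' | h' | h' <;> rw [h'] <;> norm_num
    have e5 := sum_le_sum e4
    rw [sum_nd hb] at e5
    have e6 : 0 ≤ (∑ c ∈ F, m b c) ^ 2 := sq_nonneg _
    linarith
  calc _ ≤ ∑ b ∈ F, ((F.card : ℤ) - 1) := sum_le_sum e3
    _ = _ := by rw [sum_const, nsmul_eq_mul]

theorem form_bound {F : Finset κ} {m : κ → κ → ℤ} {e : κ → ℤ} (hs : ∀ a, m a a = 0)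
    (hanti : ∀ a b, m b a = -m a b) (hr : ∀ a ∈ F, ∀ b ∈ F, m a b = -1 ∨ m a b = 0 ∨ m a b = 1)
    (he : ∀ a ∈ F, |e a| = 1) :
    |∑ a ∈ F, ∑ b ∈ F, ∑ c ∈ F, e a * e b * e c * P (m a b) (m b c) (m c a)| ≤
      2 * ((F.card : ℤ) ^ 3 - F.card) := by
  have k0 : |∑ a ∈ F, ∑ b ∈ F, ∑ c ∈ F, e a * e b * e c * P (m a b) (m b c) (m c a)| ≤
      ∑ a ∈ F, ∑ b ∈ F, ∑ c ∈ F, (2 * (nd a b * nd b c * nd c a) +
      2 * (m a b * m b c * nd c a + m b c * m c a * nd a b + m c a * m a b * nd b c)) := by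
    refine (abs_sum_le_sum_abs _ _).trans (sum_le_sum fun a ha => ?_)
    refine (abs_sum_le_sum_abs _ _).trans (sum_le_sum fun b hb => ?_)
    refine (abs_sum_le_sum_abs _ _).trans (sum_le_sum fun c hc => ?_)
    rw [abs_mul, abs_mul, abs_mul, he a ha, he b hb, he c hc, one_mul, one_mul, one_mul]
    exact term_bound hs hanti (hr a ha b hb) (hr b hb c hc) (hr c hc a ha)
  have k1 := sum_mm hs hanti hr
  have k2 : ∑ a ∈ F, ∑ b ∈ F, ∑ c ∈ F, m b c * m c a * nd a b =
      ∑ a ∈ F, ∑ b ∈ F, ∑ c ∈ F, m a b * m b c * nd c a := by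
    have : ∑ a ∈ F, ∑ b ∈ F, ∑ c ∈ F, m b c * m c a * nd a b =
        ∑ b ∈ F, ∑ c ∈ F, ∑ a ∈ F, m b c * m c a * nd a b := by
      rw [sum_comm]
      refine sum_congr rfl fun b _ => ?_
      rw [sum_comm]
    rw [this]
  have k3 : ∑ a ∈ F, ∑ b ∈ F, ∑ c ∈ F, m c a * m a b * nd b c =
      ∑ a ∈ F, ∑ b ∈ F, ∑ c ∈ F, m a b * m b c * nd c a := by
    have : ∑ a ∈ F, ∑ b ∈ F, ∑ c ∈ F, m c a * m a b * nd b c =
        ∑ c ∈ F, ∑ a ∈ F, ∑ b ∈ F, m c a * m a b * nd b c := by
      have : ∀ a ∈ F, ∑ b ∈ F, ∑ c ∈ F, m c a * m a b * nd b c =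
          ∑ c ∈ F, ∑ b ∈ F, m c a * m a b * nd b c := fun a _ => sum_comm
      rw [sum_congr rfl this, sum_comm]
    rw [this]
  have k4 : ∑ a ∈ F, ∑ b ∈ F, ∑ c ∈ F, (2 * (nd a b * nd b c * nd c a) +
      2 * (m a b * m b c * nd c a + m b c * m c a * nd a b + m c a * m a b * nd b c)) =
      2 * ((F.card : ℤ) * (F.card - 1) * (F.card - 2)) +
      2 * (3 * ∑ a ∈ F, ∑ b ∈ F, ∑ c ∈ F, m a b * m b c * nd c a) := by
    simp only [sum_add_distrib, ← mul_sum]
    rw [sum_nd3, k2, k3]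
    ring
  rw [k4] at k0
  have k5 : 2 * ((F.card : ℤ) * (F.card - 1) * (F.card - 2)) +
      2 * (3 * ((F.card : ℤ) * (F.card - 1))) = 2 * ((F.card : ℤ) ^ 3 - F.card) := by ring
  linarith

end

theorem sm_eq_sum {κ : Type} [DecidableEq κ] {C : List κ} (hC : C.Nodup) (g : κ → ℤ) :
    sm C g = ∑ a ∈ C.toFinset, g a := by
  unfold sm
  rw [List.sum_toFinset g hC]

theorem crs_sign {ν : Type} (w : List (Piece × ν)) (s : St (ν × Bool)) :
    ∀ a ∈ crs w s, |a.2| = 1 := by
  induction w generalizing s with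
  | nil => intro a ha; simp [crs] at ha
  | cons x w ih =>
    intro a ha
    rw [crs, List.mem_append] at ha
    rcases ha with ha | ha
    · obtain ⟨x, c⟩ := x
      cases x with
      | birth i b => simp [crs1] at ha
      | death i => simp [crs1] at ha
      | pos i =>
        simp only [crs1, List.mem_singleton] at ha
        subst ha
        cases s.d i <;> cases s.d (i + 1) <;> simp [sg]
      | neg i =>
        simp only [crs1, List.mem_singleton] at ha
        subst ha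
        cases s.d i <;> cases s.d (i + 1) <;> simp [sg]
    · exact ih _ a ha

theorem crs_length {ν : Type} (w : List (Piece × ν)) (s : St (ν × Bool)) :
    (crs w s).length = crossings (w.map Prod.fst) := by
  induction w generalizing s with
  | nil => rfl
  | cons x w ih =>
    rw [crs, List.length_append, ih]
    unfold crossings
    rw [List.map_cons, List.countP_cons]
    obtain ⟨x, c⟩ := x
    cases x <;> simp [crs1, Piece.isCrossing, add_comm]

theorem list_bound {ν : Type} [DecidableEq ν] {C : List (ν × ℤ)} {m : ν → ν → ℤ}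
    (hn : Nice m C) (hCn : C.Nodup) (hs : ∀ a ∈ C, |a.2| = 1) (hself : ∀ x, m x x = 0) :
    |f48 m C| ≤ 2 * ((C.length : ℤ) ^ 3 - C.length) := by
  have h1 : f48 m C = ∑ a ∈ C.toFinset, ∑ b ∈ C.toFinset, ∑ c ∈ C.toFinset,
      H m a b c := by
    unfold f48 T3
    rw [sm_eq_sum hCn]
    refine sum_congr rfl fun a _ => ?_
    rw [sm_eq_sum hCn]
    refine sum_congr rfl fun b _ => ?_
    rw [sm_eq_sum hCn]
  have h2 : (C.toFinset.card : ℤ) = (C.length : ℤ) := by
    rw [List.toFinset_card_of_nodup hCn]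
  rw [h1, ← h2]
  let m' : ν × ℤ → ν × ℤ → ℤ := fun a b => if a ∈ C ∧ b ∈ C then m a.1 b.1 else 0
  have hm' : ∀ a ∈ C.toFinset, ∀ b ∈ C.toFinset, m' a b = m a.1 b.1 := by
    intro a ha b hb
    exact if_pos ⟨List.mem_toFinset.1 ha, List.mem_toFinset.1 hb⟩
  have h3 := form_bound (F := C.toFinset) (m := m') (e := Prod.snd)
    (fun a => by
      by_cases ha : a ∈ C
      · show (if a ∈ C ∧ a ∈ C then m a.1 a.1 else 0) = 0
        rw [if_pos ⟨ha, ha⟩, hself]
      · exact if_neg (fun h => ha h.1))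
    (fun a b => by
      show (if b ∈ C ∧ a ∈ C then m b.1 a.1 else 0) = -(if a ∈ C ∧ b ∈ C then m a.1 b.1 else 0)
      by_cases h : a ∈ C ∧ b ∈ C
      · rw [if_pos h, if_pos h.symm, hn.anti a h.1 b h.2]
      · rw [if_neg h, if_neg (fun h' => h h'.symm), neg_zero])
    (fun a ha b hb => by
      rw [hm' a ha b hb]
      exact hn.range a (List.mem_toFinset.1 ha) b (List.mem_toFinset.1 hb))
    (fun a ha => hs a (List.mem_toFinset.1 ha))
  refine le_trans (le_of_eq ?_) h3
  congr 1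
  refine sum_congr rfl fun a ha => sum_congr rfl fun b hb => sum_congr rfl fun c hc => ?_
  unfold H
  rw [hm' a ha b hb, hm' b hb c hc, hm' c hc a ha]

theorem f_concat (D' : Word) : f (D' ++ [death 0]) =
    f48 (M (G (exp D'.zipIdx) empty)) (crs D'.zipIdx empty) := by
  unfold f valD
  rw [List.dropLast_concat]
  rfl

theorem crossings_concat (D' : Word) : crossings (D' ++ [death 0]) =
    (crs D'.zipIdx (empty : St (ℕ × Bool))).length := by
  rw [crs_length, List.zipIdx_map_fst]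
  unfold crossings
  rw [List.countP_append]
  simp [Piece.isCrossing]

theorem f_bound {D : Word} (hD : IsKnot D) :
    |f D| ≤ 2 * ((crossings D : ℤ) ^ 3 - crossings D) := by
  obtain ⟨D', rfl, hD1, hD2, hD3⟩ := knot_last hD
  have hO : Open D' := ⟨hD1, hD2, hD3⟩
  have hk : KW D'.zipIdx := kw_of_open hO (List.zipIdx_map_fst 0 D') (by
    rw [List.zipIdx_map_snd]; exact List.nodup_range')
  rw [f_concat, crossings_concat]
  have h1 : ((crs D'.zipIdx (empty : St (ℕ × Bool))).map Prod.fst).Nodup := by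
    rw [crs_fst]; exact hk.nodup
  exact list_bound hk.nice h1.of_map (crs_sign _ _) (M_self _)

/-- Willerton's bound for the invariant constructed here. -/
theorem v3_bound {D : Word} (hD : IsKnot D) :
    |v3 D| ≤ (crossings D : ℝ) * ((crossings D : ℝ) ^ 2 - 1) / 24 := by
  have h := f_bound hD
  have h' : |(f D : ℝ)| ≤ 2 * ((crossings D : ℝ) ^ 3 - crossings D) := by exact_mod_cast h
  unfold v3
  rw [abs_div, abs_of_pos (by norm_num : (0 : ℝ) < 48), div_le_div_iff₀ (by norm_num) (by norm_num)]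
  nlinarith

end Pool.Agent.H835R2.Knot
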